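import Pool.Agent.Lib.WHX.TopAll

/-!
# Low K-theory of the groups of geometric dimension at most two (MP_16fe43_al, Q1)

The definition of `GeomDimLETwo` is in `Pool.Agent.Lib.GD2.Asph`, the definition of `PolyZ` is in
`Pool.Agent.Lib.WHX.TopDefs`, the definitions of the `K`-groups are in `Pool.Agent.Lib.MP_16fe43_al.Statement`.
-/

set_option autoImplicit false

namespace Pool.Agent.Lib.MP_16fe43_al.Old.AllGeomDimTwo

open Pool.Agent.Lib.BHS16 (LowKVanishing)
open Pool.Agent.Lib.GD2 (GeomDimLETwo)
open Pool.Agent.Lib.WHX (PolyZ)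

/-- Let every finitely generated subgroup of `Γ` embed in a product `G × E`, where `G` has geometric dimension at most
two and `E` is poly-`ℤ`. Then `Wh`, `K̃₀` and `K_n`, `n ≤ -1`, vanish for all groups `Γ × ℤ^k`, `k ≥ 0`. In particular
(`E = 1`) this holds for **all** groups `Γ` of geometric dimension at most two. -/
theorem result {Γ : Type} [Group Γ]
    (h : ∀ H : Subgroup Γ, H.FG → ∃ (G E : Type) (_ : Group G) (_ : Group E) (f : H →* G × E),
      Function.Injective f ∧ GeomDimLETwo G ∧ PolyZ E)
    (k : ℕ) : LowKVanishing (Γ × (Fin k → Multiplicative ℤ)) :=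
  Pool.Agent.Lib.WHX.top_all h k

end Pool.Agent.Lib.MP_16fe43_al.Old.AllGeomDimTwo
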