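import Pool.Agent.Lib.FPT.UStmt

set_option autoImplicit false

namespace Pool.Agent.Lib.MP_16fe43_al.Old.FinitelyPresentedTestGroup

open Pool.Agent.Lib.BHS16 Pool.Agent.Lib.FPT

universe u

/-- There is one finitely presented torsion-free group `P` with two generators such that every
torsion-free group `G` with a recursively enumerable presentation embeds in `P` by a homomorphism
which is injective on the Whitehead groups of all `G × ℤ^k` and on the reduced projective class
group, and such that the vanishing of `Wh(P)` is equivalent to the vanishing of all the low
`K`-groups for all torsion-free groups. -/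
theorem result : ∃ (P : Type) (_ : Group P), Group.IsFinitelyPresented P ∧
    (∃ a b : P, Subgroup.closure {a, b} = ⊤) ∧ TorsionFree P ∧
    (∀ (G : Type u) [Group G], TorsionFree G → REPres G →
      ∃ f : G →* P, Function.Injective f ∧ LowKInj f) ∧
    ((∀ (G : Type u) [Group G], TorsionFree G → LowKVanishing G) ↔ Subsingleton (Wh P)) :=
  final

end Pool.Agent.Lib.MP_16fe43_al.Old.FinitelyPresentedTestGroup
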