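import Pool.Agent.Lib.PLA.PFin

set_option autoImplicit false

namespace Pool.Agent.Lib.MP_16fe43_al.Old.PlaneAutomorphisms

open MvPolynomial
open Pool.Agent.Lib.MP_16fe43_al
open Pool.Agent.Lib.BHS16 (TorsionFree LowKVanishing)

/-- Let `A = ℤ` (`p = 1`) or `A = ℤ[1/p]`, `p` a prime number, and `R = A[t₁, …, t_n]`. Let `G` be a torsion-free
group which embeds in the group of `R`-algebra automorphisms of `R[x, y]`; if `p ≠ 1` suppose that the Jacobian
determinants of its elements are `±1`. Then `Wh`, `K̃₀` and `K_m`, `m ≤ -1`, vanish for all the groups `G × ℤ^k`. -/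
theorem result (p : ℕ) (hp : p = 1 ∨ p.Prime) (A : Type) [CommRing A]
    [IsLocalization.Away (p : ℤ) A] (n : ℕ) {G : Type} [Group G] (tf : TorsionFree G)
    (ρ : G →* (MvPolynomial (Fin 2) (MvPolynomial (Fin n) A) ≃ₐ[MvPolynomial (Fin n) A]
      MvPolynomial (Fin 2) (MvPolynomial (Fin n) A)))
    (inj : Function.Injective ρ)
    (jac : p = 1 ∨ ∀ g : G,
      pderiv 0 (ρ g (X 0)) * pderiv 1 (ρ g (X 1)) - pderiv 1 (ρ g (X 0)) * pderiv 0 (ρ g (X 1)) = 1 ∨
      pderiv 0 (ρ g (X 0)) * pderiv 1 (ρ g (X 1)) - pderiv 1 (ρ g (X 0)) * pderiv 0 (ρ g (X 1)) = -1)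
    (k : ℕ) : LowKVanishing (G × (Fin k → Multiplicative ℤ)) := by
  rcases jac with rfl | jac
  · refine Pool.Agent.Lib.PLA.plane_stV 1 (Or.inl rfl) A n tf ρ inj (fun g => ?_) k
    have hdom := (Pool.Agent.Lib.PLA.closed_away 1 (Or.inl rfl) A n).1
    obtain ⟨r, hr⟩ := Pool.Agent.Lib.PLA.jacD_unit (ρ g)
    obtain ⟨k, hk⟩ := Pool.Agent.Lib.PLA.unit_away 1 (Or.inl rfl) A n
      (FractionRing (MvPolynomial (Fin n) A)) (IsFractionRing.injective _ _) r
    rw [hr]
    rw [Nat.cast_one, one_zpow] at hk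
    rcases hk with hk | hk
    · left
      have : (r : MvPolynomial (Fin n) A) = 1 := by
        apply IsFractionRing.injective (MvPolynomial (Fin n) A) (FractionRing (MvPolynomial (Fin n) A))
        rw [hk, map_one]
      rw [this, C_1]
    · right
      have : (r : MvPolynomial (Fin n) A) = -1 := by
        apply IsFractionRing.injective (MvPolynomial (Fin n) A) (FractionRing (MvPolynomial (Fin n) A))
        rw [hk, map_neg, map_one]
      rw [this, C_neg, C_1]
  · exact Pool.Agent.Lib.PLA.plane_stV p hp A n tf ρ inj jac k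

end Pool.Agent.Lib.MP_16fe43_al.Old.PlaneAutomorphisms
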