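import Pool.Agent.Lib.SLT.NEnd
import Pool.Agent.Lib.SLT.DInt

set_option autoImplicit false

namespace Pool.Agent.Lib.MP_16fe43_al.Old.PolynomialMatrixGroups

open Pool.Agent.Lib.BHS16

/-- Let `f` be a prime element of `ℤ[x₁, …, x_n]`, and `A = ℤ[x₁, …, x_n][1/f]`. The low K-groups
(`Wh`, `K̃₀`, `K_m` for `m ≤ -1`) vanish for all the groups `Γ × ℤ^k`, where `Γ` is a torsion-free
subgroup of `GL₂(A)`. -/
theorem result (n : ℕ) (f : MvPolynomial (Fin n) ℤ) (hf : Prime f)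
    (Γ : Subgroup (Matrix.GeneralLinearGroup (Fin 2) (Localization.Away f)))
    (tf : TorsionFree Γ) (k : ℕ) : LowKVanishing (Γ × (Fin k → Multiplicative ℤ)) :=
  Pool.Agent.Lib.SLT.gl2_away (fun H _ h => Pool.Agent.Lib.SLT.cls_int H h) n f hf Γ tf k

end Pool.Agent.Lib.MP_16fe43_al.Old.PolynomialMatrixGroups
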