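import Pool.Agent.Lib.MP_16fe43_al.TrStmt

set_option autoImplicit false

namespace Pool.Agent.Lib.MP_16fe43_al.Old.SemidirectKernel

open Pool.Agent.Lib.BHS16 Pool.Agent.Lib.MP_16fe43_al

universe u v

/-- Let `Q` be a torsion-free group acting on a group `B` that has a retraction system. Then the
kernel of `Wh(B) → Wh(B ⋊ Q)` is generated by the elements `q x - x`; in other words the
coinvariants `Wh(B)_Q` embed in `Wh(B ⋊ Q)`. -/
theorem result {B : Type u} {Q : Type v} [Group B] [Group Q] [DecidableEq Q]
    (hQ : TorsionFree Q) (φ : Q →* MulAut B) (𝓡 : RetractionSystem B Q φ) :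
    (whMap (SemidirectProduct.inl : B →* B ⋊[φ] Q)).ker = actionDiff φ :=
  ker_retractionSystem hQ 𝓡

end Pool.Agent.Lib.MP_16fe43_al.Old.SemidirectKernel
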