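import Pool.Agent.Lib.MP_16fe43_al.TreeF2

set_option autoImplicit false

namespace Pool.Agent.Results.MP_16fe43_al.TreeVanishing

open Pool.Agent.Lib.MP_16fe43_al
open MulAction (stabilizer)

universe u w

/-- Let `G` act without inversions on a tree `T` with bounded drops of the stabilizers of segments,
outside of the stably regular groups. Suppose that the low K-groups (`Wh`, `K̃₀`, `K_n` for
`n ≤ -1`) vanish for all the groups `G_v × ℤ^k`, `v` a vertex, and `L_g × ℤ^k`, where `g` is an
element without fixed vertex such that the pointwise stabilizer `D_g` of its axis is not stably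
regular, and `L_g` is generated by `D_g` and `g`; and suppose that `K̃₀` vanishes for all the groups
`G_e × ℤ^k`, `e` an edge. Then the low K-groups vanish for all the groups `G × ℤ^k`. -/
theorem result {G : Type u} [Group G] {V : Type w} [MulAction G V] (T : SimpleGraph V)
    (tree : T.IsTree)
    (adj : ∀ (g : G) (a b : V), T.Adj a b → T.Adj (g • a) (g • b))
    (noinv : ∀ (g : G) (a b : V), T.Adj a b → ¬ (g • a = b ∧ g • b = a))
    (drops : BddDrops G T (fun D : Subgroup G => StReg D))
    (hV : ∀ v : V, StV (stabilizer G v))
    (hE : ∀ a b : V, T.Adj a b → ∀ k : ℕ, Subsingleton (Pool.Agent.Lib.BHS16.K0Red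
      ((stabilizer G a ⊓ stabilizer G b : Subgroup G) × (Fin k → Multiplicative ℤ))))
    (hL : ∀ g : G, (∀ v : V, g • v ≠ v) → ¬ StReg (axisStab T g) → StV (axisGroup T g)) :
    StV G :=
  tree_stV ⟨tree, adj, noinv⟩ drops hV hE hL

end Pool.Agent.Results.MP_16fe43_al.TreeVanishing
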