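import Pool.Agent.Lib.MP_16fe43_al.TwoGen

set_option autoImplicit false

namespace Pool.Agent.Results.MP_16fe43_al.TwoGeneratedTestGroup

open Pool.Agent.Lib.BHS16

universe u

theorem wh_ulift {G : Type} [Group G] (h : Subsingleton (Wh (ULift.{u} G))) :
    Subsingleton (Wh G) :=
  wh_retract (MulEquiv.ulift (α := G)).symm.toMonoidHom (MulEquiv.ulift (α := G)).toMonoidHom
    (by ext x; rfl) h

/-- There is one torsion-free group `U` with two generators such that the vanishing of `Wh(U)`
is equivalent to the vanishing of all the low `K`-groups for all torsion-free groups. -/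
theorem result : ∃ (U : Type) (_ : Group U), (∃ a b : U, Subgroup.closure {a, b} = ⊤) ∧
    TorsionFree U ∧
    ((∀ (G : Type u) [Group G], TorsionFree G → LowKVanishing G) ↔ Subsingleton (Wh U)) := by
  refine ⟨UG, inferInstance, UG.gen, UG.torsionFree, ?_, ?_⟩
  · intro h
    apply wh_ulift
    exact (h (ULift.{u} UG) (UG.torsionFree.of_injective
      (MulEquiv.ulift (α := UG)).toMonoidHom (MulEquiv.ulift (α := UG)).injective)).1
  · intro h
    apply lowK_of_wh
    intro G _ hG
    exact wh_of_test (UG.wh_test h) G hG

end Pool.Agent.Results.MP_16fe43_al.TwoGeneratedTestGroup
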