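import Pool.Agent.Lib.PTV.VLin

set_option autoImplicit false

namespace Pool.Agent.Lib.MP_16fe43_al.Old.VirtualLinearGroups

open Pool.Agent.Lib.BHS16 (TorsionFree LowKVanishing)
open scoped MatrixGroups Quaternion

/-- Let `G` be a torsion-free group such that every finitely generated subgroup `H` of `G` has a finite
index subgroup `K` which embeds in a product of `GL₂(R)`, where `R` is a commutative ring of nonzero
characteristic, and of finitely many groups of units of Hamilton quaternions over fields
`ℚ(t₁, …, t_d)`. Then the low `K`-groups vanish for all the groups `G × ℤ^k`. -/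
theorem result {G : Type} [Group G] (tf : TorsionFree G)
    (h : ∀ H : Subgroup G, H.FG → ∃ K : Subgroup H, K.FiniteIndex ∧
      ∃ (R : Type) (_ : CommRing R) (n : ℕ) (ρ : K →* GL (Fin 2) R) (m : ℕ) (d : Fin m → ℕ)
        (τ : ∀ j, K →* (ℍ[FractionRing (MvPolynomial (Fin (d j)) ℤ)])ˣ),
        0 < n ∧ (n : R) = 0 ∧ ∀ g : K, ρ g = 1 → (∀ j, τ j g = 1) → g = 1) (k : ℕ) :
    LowKVanishing (G × (Fin k → Multiplicative ℤ)) :=
  Pool.Agent.Lib.PTV.v_lin tf h k

end Pool.Agent.Lib.MP_16fe43_al.Old.VirtualLinearGroups
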