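import Pool.Agent.Lib.SLT.UTop

set_option autoImplicit false

namespace Pool.Agent.Lib.MP_16fe43_al.Old.VirtualMatrixGroups

open Pool.Agent.Lib.BHS16 (TorsionFree LowKVanishing)
open scoped MatrixGroups Quaternion

/-- The elements of `F` which are integral over `ℤ` are integers, and every rational quadratic form with a
nontrivial zero over `F` has a nontrivial rational zero. -/
def RationalLike (F : Type) [Field F] : Prop :=
  (∀ x : F, IsIntegral ℤ x → ∃ k : ℤ, x = (k : F)) ∧
    ∀ (N : ℕ) (a : Fin N → Fin N → ℚ) (x : Fin N → F), x ≠ 0 →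
      ∑ i, ∑ j, (a i j : F) * x i * x j = 0 →
      ∃ y : Fin N → ℚ, y ≠ 0 ∧ ∑ i, ∑ j, a i j * y i * y j = 0

/-- The field `ℚ(t₁, …, t_d)` -/
abbrev RatFun (d : ℕ) : Type := FractionRing (MvPolynomial (Fin d) ℤ)

/-- `K` has jointly injective homomorphisms to `GL₂(F)`, to `GL₂(R)`, where `R` is a commutative ring with
`n = 0`, and to finitely many groups of units of Hamilton quaternions over fields `ℚ(t₁, …, t_d)`. -/
def Linear (F : Type) [Field F] (K : Type) [Group K] : Prop :=
  ∃ (ρ₀ : K →* GL (Fin 2) F) (R : Type) (_ : CommRing R) (n : ℕ) (ρ : K →* GL (Fin 2) R)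
    (m : ℕ) (d : Fin m → ℕ) (τ : ∀ j, K →* (ℍ[RatFun (d j)])ˣ),
    0 < n ∧ (n : R) = 0 ∧ ∀ g : K, ρ₀ g = 1 → ρ g = 1 → (∀ j, τ j g = 1) → g = 1

/-- Let `F` be a field of characteristic zero with the property `RationalLike`, for example `ℚ((t))`. Let
`G` be a torsion-free group such that every finitely generated subgroup `H` of `G` has a finite index
subgroup `K` with the property `Linear F K`. Then the low `K`-groups vanish for all the groups `G × ℤ^k`. -/
theorem result :
    (∀ (F : Type) [Field F] [CharZero F], RationalLike F →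
      ∀ (G : Type) [Group G], TorsionFree G →
        (∀ H : Subgroup G, H.FG → ∃ K : Subgroup H, K.FiniteIndex ∧ Linear F K) →
        ∀ k : ℕ, LowKVanishing (G × (Fin k → Multiplicative ℤ))) ∧
    RationalLike (LaurentSeries ℚ) := by
  refine ⟨?_, Pool.Agent.Lib.SLT.hZ_laurent, Pool.Agent.Lib.SLT.hIso_laurent⟩
  intro F _ _ hF G _ tf h k
  refine Pool.Agent.Lib.SLT.u_top (F := F) hF.1 hF.2 tf (fun H hH => ?_) k
  obtain ⟨K, hK, ρ₀, R, _, n, ρ, m, d, τ, hn, hR, inj⟩ := h H hH
  exact ⟨K, hK, ρ₀, R, inferInstance, n, hn, hR, ρ, m, d, τ, inj⟩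

end Pool.Agent.Lib.MP_16fe43_al.Old.VirtualMatrixGroups
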