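import Pool.Agent.Lib.PTV.VFinal

set_option autoImplicit false

namespace Pool.Agent.Results.MP_16fe43_al.VirtualTreeProducts

open Pool.Agent.Lib.BHS16 (TorsionFree LowKVanishing)

/-- Let `G` be a torsion-free group such that every finitely generated subgroup `H` of `G` has a finite
index subgroup `K` which acts on finitely many trees `T i` such that only `1` fixes a vertex in each of
them. Then the low `K`-groups vanish for all the groups `G × ℤ^k`. -/
theorem result {G : Type} [Group G] (tf : TorsionFree G)
    (h : ∀ H : Subgroup G, H.FG → ∃ K : Subgroup H, K.FiniteIndex ∧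
      ∃ (m : ℕ) (X : Fin m → Type) (T : ∀ i, SimpleGraph (X i)) (_ : ∀ i, MulAction K (X i)),
        (∀ i, (T i).IsTree) ∧
        (∀ (i : Fin m) (g : K) (u v : X i), (T i).Adj u v → (T i).Adj (g • u) (g • v)) ∧
        ∀ g : K, (∀ i, ∃ x : X i, g • x = x) → g = 1) (k : ℕ) :
    LowKVanishing (G × (Fin k → Multiplicative ℤ)) :=
  Pool.Agent.Lib.PTV.v_final tf h k

end Pool.Agent.Results.MP_16fe43_al.VirtualTreeProducts
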