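import Pool.Agent.Lib.MP_16fe43_al.WhWreath2

set_option autoImplicit false

namespace Pool.Agent.Lib.MP_16fe43_al.Old.WreathProduct

open Pool.Agent.Lib.BHS16 Pool.Agent.Lib.MP_16fe43_al

universe u

/-- For every group `H`, the Whitehead group of the restricted wreath product `H ≀ ℤ` is the
group of coinvariants of the Whitehead group of the base group `⊕_ℤ H` under the shift, the
isomorphism being induced by the inclusion of the base group. -/
theorem result (H : Type u) [Group H] :
    Function.Surjective (whMap (baseHom H)) ∧ (whMap (baseHom H)).ker = shiftDiff H :=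
  ⟨whP_surj H, whP_ker H⟩

end Pool.Agent.Lib.MP_16fe43_al.Old.WreathProduct
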